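import Mathlib

set_option autoImplicit false

namespace Pool.Agent.H127R3.Dow

/-- at most three elements, no three of them on a common line -/
def LInd {α ι : Type} (L : α → ι → Prop) (I : Finset α) : Prop :=
  I.card ≤ 3 ∧ ∀ x ∈ I, ∀ y ∈ I, ∀ z ∈ I, x ≠ y → y ≠ z → x ≠ z →
    ∀ l, ¬ (L x l ∧ L y l ∧ L z l)

theorem lind_mono {α ι : Type} {L : α → ι → Prop} {I J : Finset α} (hJ : LInd L J) (h : I ⊆ J) :
    LInd L I :=
  ⟨(Finset.card_le_card h).trans hJ.1, fun x hx y hy z hz => hJ.2 x (h hx) y (h hy) z (h hz)⟩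

theorem lind_aug {α ι : Type} [DecidableEq α] {L : α → ι → Prop}
    (huniq : ∀ x y : α, x ≠ y → ∀ l l', L x l → L y l → L x l' → L y l' → l = l')
    {I J : Finset α} (hI : LInd L I) (hJ : LInd L J) (hc : I.card < J.card) :
    ∃ e ∈ J, e ∉ I ∧ LInd L (insert e I) := by
  by_contra hcon
  push Not at hcon
  have hJ3 := hJ.1
  obtain ⟨e0, he0, he0I⟩ : ∃ e ∈ J, e ∉ I := by
    by_contra h
    push Not at h
    exact absurd (Finset.card_le_card (fun x hx => h x hx)) (not_le.2 hc)
  -- small sets are independent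
  have hsmall : ∀ K : Finset α, K.card ≤ 2 → LInd L K := by
    intro K hK
    refine ⟨by omega, ?_⟩
    intro x hx y hy z hz hxy hyz hxz
    exfalso
    have : ({x, y, z} : Finset α) ⊆ K := by
      intro w hw
      simp only [Finset.mem_insert, Finset.mem_singleton] at hw
      rcases hw with rfl | rfl | rfl <;> assumption
    have h1 := Finset.card_le_card this
    rw [Finset.card_eq_three.2 ⟨x, y, z, hxy, hxz, hyz, rfl⟩] at h1
    omega
  have hI2 : I.card = 2 := by
    by_contra h
    have h1 : I.card ≤ 1 := by omega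
    have h2 : (insert e0 I).card ≤ 2 := by
      rw [Finset.card_insert_of_notMem he0I]; omega
    exact hcon e0 he0 he0I (hsmall _ h2)
  have hJ3' : J.card = 3 := by omega
  obtain ⟨a, b, hab, rfl⟩ := Finset.card_eq_two.1 hI2
  have key : ∀ e ∈ J, e ∉ ({a, b} : Finset α) → ∃ l, L a l ∧ L b l ∧ L e l := by
    intro e he heI
    have h1 := hcon e he heI
    by_contra h2
    push Not at h2
    apply h1
    refine ⟨by rw [Finset.card_insert_of_notMem heI, hI2], ?_⟩
    intro x hx y hy z hz hxy hyz hxz l hl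
    simp only [Finset.mem_insert, Finset.mem_singleton] at hx hy hz heI
    have h3 := h2 l
    rcases hx with rfl | rfl | rfl <;> rcases hy with rfl | rfl | rfl <;>
      rcases hz with rfl | rfl | rfl <;> tauto
  obtain ⟨l, hal, hbl, hel⟩ := key e0 he0 he0I
  have hall : ∀ e ∈ J, L e l := by
    intro e he
    by_cases heI : e ∈ ({a, b} : Finset α)
    · simp only [Finset.mem_insert, Finset.mem_singleton] at heI
      rcases heI with rfl | rfl <;> assumption
    · obtain ⟨l', ha', hb', he'⟩ := key e he heI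
      rw [huniq a b hab l l' hal hbl ha' hb']
      exact he'
  obtain ⟨x, y, z, hxy, hxz, hyz, rfl⟩ := Finset.card_eq_three.1 hJ3'
  exact hJ.2 x (by simp) y (by simp) z (by simp) hxy hyz hxz l
    ⟨hall x (by simp), hall y (by simp), hall z (by simp)⟩

/-- the rank three matroid of a partial linear space -/
theorem exists_matroid {α ι : Type} (L : α → ι → Prop)
    (huniq : ∀ x y : α, x ≠ y → ∀ l l', L x l → L y l → L x l' → L y l' → l = l') :
    ∃ M : Matroid α, M.E = Set.univ ∧ ∀ X : Finset α, M.Indep (X : Set α) ↔ LInd L X := by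
  classical
  have h1 : LInd L ∅ := ⟨by simp, by simp⟩
  have h2 : ∀ ⦃I J : Finset α⦄, LInd L J → I ⊆ J → LInd L I := fun I J hJ h => lind_mono hJ h
  have h3 : ∀ ⦃I J : Finset α⦄, LInd L I → LInd L J → I.card < J.card →
      ∃ e ∈ J, e ∉ I ∧ LInd L (insert e I) := fun I J hI hJ hc => lind_aug huniq hI hJ hc
  have h4 : ∀ ⦃I : Finset α⦄, LInd L I → (I : Set α) ⊆ Set.univ := fun I _ => Set.subset_univ _
  refine ⟨(IndepMatroid.ofFinset Set.univ (LInd L) h1 h2 h3 h4).matroid, rfl, ?_⟩
  intro X
  exact IndepMatroid.ofFinset_indep Set.univ (LInd L) h1 h2 h3 h4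

end Pool.Agent.H127R3.Dow
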