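import Pool.Agent.H127R3.Dow1

set_option autoImplicit false

namespace Pool.Agent.H127R3.Dow

/-- points of the rank three Dowling geometry, as in the frozen statement -/
abbrev Pt (A : Type) : Type := Fin 3 ⊕ (A × {p : Fin 3 × Fin 3 // p.1 < p.2})

/-- vertices met by a point -/
abbrev vs {A : Type} (e : Pt A) : Finset (Fin 3) :=
  Sum.elim (fun i => ({i} : Finset (Fin 3))) (fun x => ({x.2.1.1, x.2.1.2} : Finset (Fin 3))) e

/-- the independence condition of the frozen statement -/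
def DI (A : Type) [Group A] (Y : Set (Pt A)) : Prop :=
  ∀ T : Finset (Pt A), (↑T ⊆ Y) → T.Nonempty →
    (T.card ≤ (T.biUnion (fun e => Sum.elim (fun i => ({i} : Finset (Fin 3)))
        (fun x => ({x.2.1.1, x.2.1.2} : Finset (Fin 3))) e)).card ∧
     (((∀ i : Fin 3, Sum.inl i ∉ T) ∧
        ∃ φ : Fin 3 → A, ∀ x : A × {p : Fin 3 × Fin 3 // p.1 < p.2},
          Sum.inr x ∈ T → x.1 = φ x.2.1.1 * (φ x.2.1.2)⁻¹) →
      T.card + 1 ≤ (T.biUnion (fun e => Sum.elim (fun i => ({i} : Finset (Fin 3)))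
        (fun x => ({x.2.1.1, x.2.1.2} : Finset (Fin 3))) e)).card))

/-- the lines with at least three points: three coordinate lines (indexed by the missing vertex)
and the transversal lines -/
def On {A : Type} [Group A] (x : Pt A) (l : Fin 3 ⊕ (A × A)) : Prop :=
  match x, l with
  | Sum.inl v, Sum.inl i => v ≠ i
  | Sum.inl _, Sum.inr _ => False
  | Sum.inr (_, p), Sum.inl i => p.1.1 ≠ i ∧ p.1.2 ≠ i
  | Sum.inr (g, p), Sum.inr (a, b) =>
      (p.1 = (0, 1) ∧ g = a) ∨ (p.1 = (1, 2) ∧ g = b) ∨ (p.1 = (0, 2) ∧ g = a * b)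

theorem pair_cases (p : {p : Fin 3 × Fin 3 // p.1 < p.2}) :
    p = ⟨(0, 1), by decide⟩ ∨ p = ⟨(1, 2), by decide⟩ ∨ p = ⟨(0, 2), by decide⟩ := by
  revert p; decide

theorem on_uniq {A : Type} [Group A] (x y : Pt A) (hxy : x ≠ y) (l l' : Fin 3 ⊕ (A × A))
    (h1 : On x l) (h2 : On y l) (h3 : On x l') (h4 : On y l') : l = l' := by
  rcases x with v | ⟨g, p⟩ <;> rcases y with w | ⟨g', p'⟩ <;> rcases l with i | ⟨a, b⟩ <;>
    rcases l' with j | ⟨a', b'⟩ <;> simp only [On] at h1 h2 h3 h4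
  · have : ∀ v w i j : Fin 3, v ≠ w → v ≠ i → w ≠ i → v ≠ j → w ≠ j → i = j := by decide
    rw [this v w i j (fun h => hxy (by rw [h])) h1 h2 h3 h4]
  · have : ∀ (v i j : Fin 3) (p : {p : Fin 3 × Fin 3 // p.1 < p.2}), v ≠ i → v ≠ j →
        p.1.1 ≠ i ∧ p.1.2 ≠ i → p.1.1 ≠ j ∧ p.1.2 ≠ j → i = j := by decide
    rw [this v i j p' h1 h3 h2 h4]
  · have : ∀ (v i j : Fin 3) (p : {p : Fin 3 × Fin 3 // p.1 < p.2}), v ≠ i → v ≠ j →
        p.1.1 ≠ i ∧ p.1.2 ≠ i → p.1.1 ≠ j ∧ p.1.2 ≠ j → i = j := by decide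
    rw [this w i j p h2 h4 h1 h3]
  · have : ∀ (i j : Fin 3) (p : {p : Fin 3 × Fin 3 // p.1 < p.2}),
        p.1.1 ≠ i ∧ p.1.2 ≠ i → p.1.1 ≠ j ∧ p.1.2 ≠ j → i = j := by decide
    rw [this i j p h1 h3]
  · exfalso
    have : ∀ (i : Fin 3) (p p' : {p : Fin 3 × Fin 3 // p.1 < p.2}),
        p.1.1 ≠ i ∧ p.1.2 ≠ i → p'.1.1 ≠ i ∧ p'.1.2 ≠ i → p = p' := by decide
    have hp := this i p p' h1 h2
    subst hp
    apply hxy
    rcases pair_cases p with rfl | rfl | rfl <;> simp at h3 h4 <;> rw [h3, h4]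
  · exfalso
    have : ∀ (i : Fin 3) (p p' : {p : Fin 3 × Fin 3 // p.1 < p.2}),
        p.1.1 ≠ i ∧ p.1.2 ≠ i → p'.1.1 ≠ i ∧ p'.1.2 ≠ i → p = p' := by decide
    have hp := this j p p' h3 h4
    subst hp
    apply hxy
    rcases pair_cases p with rfl | rfl | rfl <;> simp at h1 h2 <;> rw [h1, h2]
  · rcases pair_cases p with rfl | rfl | rfl <;> rcases pair_cases p' with rfl | rfl | rfl <;>
      simp at h1 h2 h3 h4
    all_goals first
      | (exfalso; apply hxy; rw [h1, h2]; done)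
      | skip
    · subst h1 h2; rw [h3, h4]
    · subst h1 h3
      have : b = b' := mul_left_cancel (h2.symm.trans h4)
      rw [this]
    · subst h1 h2; rw [h3, h4]
    · subst h1 h3
      have : a = a' := mul_right_cancel (h2.symm.trans h4)
      rw [this]
    · subst h2 h4
      have : b = b' := mul_left_cancel (h1.symm.trans h3)
      rw [this]
    · subst h2 h4
      have : a = a' := mul_right_cancel (h1.symm.trans h3)
      rw [this]

end Pool.Agent.H127R3.Dow
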