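import Pool.Agent.H127R3.Dow2

set_option autoImplicit false

namespace Pool.Agent.H127R3.Dow

theorem card3 (s : Finset (Fin 3)) : s.card ≤ 3 := by
  have := Finset.card_le_univ s
  simpa using this

theorem di_iff {A : Type} [Group A] (Y : Finset (Pt A)) :
    DI A (Y : Set (Pt A)) ↔ LInd (On (A := A)) Y := by
  classical
  constructor
  · intro h
    refine ⟨?_, ?_⟩
    · by_contra hc
      push Not at hc
      have hne : Y.Nonempty := by
        rw [← Finset.card_pos]; omega
      have h1 := (h Y (le_refl _) hne).1
      have h2 := card3 (Y.biUnion (fun e => Sum.elim (fun i => ({i} : Finset (Fin 3)))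
        (fun x => ({x.2.1.1, x.2.1.2} : Finset (Fin 3))) e))
      omega
    · rintro x hx y hy z hz hxy hyz hxz l ⟨hxl, hyl, hzl⟩
      have hT3 : ({x, y, z} : Finset (Pt A)).card = 3 :=
        Finset.card_eq_three.2 ⟨x, y, z, hxy, hxz, hyz, rfl⟩
      have hsub : (({x, y, z} : Finset (Pt A)) : Set (Pt A)) ⊆ (Y : Set (Pt A)) := by
        intro w hw
        simp only [Finset.coe_insert, Finset.coe_singleton, Set.mem_insert_iff,
          Set.mem_singleton_iff] at hw
        rcases hw with rfl | rfl | rfl <;> assumption
      have h1 := h {x, y, z} hsub ⟨x, by simp⟩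
      have hall : ∀ w ∈ ({x, y, z} : Finset (Pt A)), On w l := by
        intro w hw
        simp only [Finset.mem_insert, Finset.mem_singleton] at hw
        rcases hw with rfl | rfl | rfl <;> assumption
      rcases l with i | ⟨a, b⟩
      · have h2 := h1.1
        rw [hT3] at h2
        have h3 : (({x, y, z} : Finset (Pt A)).biUnion
            (fun e => Sum.elim (fun i => ({i} : Finset (Fin 3)))
            (fun x => ({x.2.1.1, x.2.1.2} : Finset (Fin 3))) e)) ⊆ Finset.univ.erase i := by
          intro v hv
          rw [Finset.mem_biUnion] at hv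
          obtain ⟨w, hw, hvw⟩ := hv
          have hwl := hall w hw
          rw [Finset.mem_erase]
          refine ⟨?_, Finset.mem_univ _⟩
          rcases w with u | ⟨g, p⟩
          · simp only [Sum.elim_inl, Finset.mem_singleton] at hvw
            subst hvw
            exact hwl
          · simp only [Sum.elim_inr, Finset.mem_insert, Finset.mem_singleton] at hvw
            simp only [On] at hwl
            rcases hvw with rfl | rfl
            · exact hwl.1
            · exact hwl.2
        have h4 := Finset.card_le_card h3
        rw [Finset.card_erase_of_mem (Finset.mem_univ _)] at h4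
        simp only [Finset.card_univ, Fintype.card_fin] at h4
        omega
      · have h2 := h1.2 ⟨?_, ?_⟩
        · rw [hT3] at h2
          have h3 := card3 (({x, y, z} : Finset (Pt A)).biUnion
            (fun e => Sum.elim (fun i => ({i} : Finset (Fin 3)))
            (fun x => ({x.2.1.1, x.2.1.2} : Finset (Fin 3))) e))
          omega
        · intro i hi
          exact hall _ hi
        · refine ⟨![a * b, b, 1], ?_⟩
          rintro ⟨g, p⟩ hgp
          have hw := hall _ hgp
          simp only [On] at hw
          rcases pair_cases p with rfl | rfl | rfl <;> simp at hw ⊢ <;> exact hw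
  · rintro ⟨hc, hcol⟩ T hT hne
    have hTY : T ⊆ Y := by exact_mod_cast hT
    have hTc : T.card ≤ 3 := (Finset.card_le_card hTY).trans hc
    have hpos : 0 < T.card := Finset.card_pos.2 hne
    set U := T.biUnion (fun e => Sum.elim (fun i => ({i} : Finset (Fin 3)))
        (fun x => ({x.2.1.1, x.2.1.2} : Finset (Fin 3))) e) with hU
    have hU1 : ∀ v : Fin 3, (Sum.inl v : Pt A) ∈ T → v ∈ U := by
      intro v hv
      rw [hU, Finset.mem_biUnion]
      exact ⟨_, hv, by simp⟩
    have hU2 : ∀ g : A × {p : Fin 3 × Fin 3 // p.1 < p.2}, (Sum.inr g : Pt A) ∈ T →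
        g.2.1.1 ∈ U ∧ g.2.1.2 ∈ U := by
      intro g hg
      rw [hU, Finset.mem_biUnion, Finset.mem_biUnion]
      exact ⟨⟨_, hg, by simp⟩, ⟨_, hg, by simp⟩⟩
    have hU3 : ∀ g : A × {p : Fin 3 × Fin 3 // p.1 < p.2}, (Sum.inr g : Pt A) ∈ T →
        2 ≤ U.card := by
      intro g hg
      have h1 := hU2 g hg
      have h2 : ({g.2.1.1, g.2.1.2} : Finset (Fin 3)) ⊆ U := by
        intro v hv
        simp only [Finset.mem_insert, Finset.mem_singleton] at hv
        rcases hv with rfl | rfl
        · exact h1.1
        · exact h1.2
      have h3 := Finset.card_le_card h2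
      rwa [Finset.card_pair (ne_of_lt g.2.2)] at h3
    -- card two, two different pairs
    have hU4 : ∀ g g' : A × {p : Fin 3 × Fin 3 // p.1 < p.2}, (Sum.inr g : Pt A) ∈ T →
        (Sum.inr g' : Pt A) ∈ T → g.2 ≠ g'.2 → 3 ≤ U.card := by
      intro g g' hg hg' hne'
      have h1 := hU2 g hg
      have h2 := hU2 g' hg'
      have h3 : ∀ (p p' : {p : Fin 3 × Fin 3 // p.1 < p.2}) (V : Finset (Fin 3)), p ≠ p' →
          p.1.1 ∈ V ∧ p.1.2 ∈ V → p'.1.1 ∈ V ∧ p'.1.2 ∈ V → 3 ≤ V.card := by decide
      exact h3 g.2 g'.2 U hne' h1 h2
    -- a triple is not on a line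
    have htri : T.card = 3 → ∀ l, ∃ w ∈ T, ¬ On w l := by
      intro h3 l
      obtain ⟨x, y, z, hxy, hxz, hyz, hT'⟩ := Finset.card_eq_three.1 h3
      have hx : x ∈ T := by rw [hT']; simp
      have hy : y ∈ T := by rw [hT']; simp
      have hz : z ∈ T := by rw [hT']; simp
      have := hcol x (hTY hx) y (hTY hy) z (hTY hz) hxy hyz hxz l
      by_contra hcon
      push Not at hcon
      exact this ⟨hcon x hx, hcon y hy, hcon z hz⟩
    have hfull : T.card = 3 → 3 ≤ U.card := by
      intro h3
      by_contra hlt
      push Not at hlt
      have : ∃ i, i ∉ U := by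
        by_contra hcon
        push Not at hcon
        have : U = Finset.univ := by ext i; simp [hcon i]
        rw [this] at hlt
        simp at hlt
      obtain ⟨i, hi⟩ := this
      obtain ⟨w, hw, hwl⟩ := htri h3 (Sum.inl i)
      apply hwl
      rcases w with v | g
      · simp only [On]
        intro hvi
        exact hi (hvi ▸ hU1 v hw)
      · obtain ⟨g, p⟩ := g
        simp only [On]
        have := hU2 (g, p) hw
        exact ⟨fun h => hi (h ▸ this.1), fun h => hi (h ▸ this.2)⟩
    refine ⟨?_, ?_⟩
    · rcases Nat.lt_or_ge T.card 3 with h | h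
      · by_cases hex : ∃ g, (Sum.inr g : Pt A) ∈ T
        · obtain ⟨g, hg⟩ := hex
          have := hU3 g hg
          omega
        · push Not at hex
          have hinj : T.card ≤ U.card := by
            have h1 : T ⊆ U.map ⟨Sum.inl, Sum.inl_injective⟩ := by
              intro w hw
              rcases w with v | g
              · rw [Finset.mem_map]
                exact ⟨v, hU1 v hw, rfl⟩
              · exact absurd hw (hex g)
            have h2 := Finset.card_le_card h1
            rwa [Finset.card_map] at h2
          exact hinj
      · have h3 : T.card = 3 := by omega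
        rw [h3]; exact hfull h3
    · rintro ⟨hnj, φ, hφ⟩
      -- no triple
      have hT2 : T.card ≤ 2 := by
        by_contra h
        have h3 : T.card = 3 := by omega
        obtain ⟨w, hw, hwl⟩ := htri h3 (Sum.inr (φ 0 * (φ 1)⁻¹, φ 1 * (φ 2)⁻¹))
        apply hwl
        rcases w with v | ⟨g, p⟩
        · exact absurd hw (hnj v)
        · have h4 := hφ (g, p) hw
          rcases pair_cases p with rfl | rfl | rfl
          · left; exact ⟨rfl, h4⟩
          · right; left; exact ⟨rfl, h4⟩
          · right; right
            refine ⟨rfl, ?_⟩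
            have h5 : g = φ 0 * (φ 2)⁻¹ := h4
            rw [h5]; group
      obtain ⟨w, hw⟩ := hne
      rcases w with v | g
      · exact absurd hw (hnj v)
      · rcases Nat.lt_or_ge T.card 2 with h | h
        · have := hU3 g hw
          omega
        · have h2 : T.card = 2 := by omega
          obtain ⟨x, y, hxy, hT'⟩ := Finset.card_eq_two.1 h2
          have hx : x ∈ T := by rw [hT']; simp
          have hy : y ∈ T := by rw [hT']; simp
          rcases x with v | g1
          · exact absurd hx (hnj v)
          rcases y with v | g2
          · exact absurd hy (hnj v)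
          have h5 : 3 ≤ U.card := by
            apply hU4 g1 g2 hx hy
            intro hp
            apply hxy
            have e1 := hφ g1 hx
            have e2 := hφ g2 hy
            obtain ⟨g1, p1⟩ := g1
            obtain ⟨g2, p2⟩ := g2
            simp only at hp e1 e2
            subst hp
            rw [e1, e2]
          omega

end Pool.Agent.H127R3.Dow
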