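import Pool.Agent.H127R3.Dow3

set_option autoImplicit false

namespace Pool.Agent.H127R3.Dow

/-- the three pairs -/
def pr (k : Fin 3) : {p : Fin 3 × Fin 3 // p.1 < p.2} :=
  ![⟨(0, 1), by decide⟩, ⟨(1, 2), by decide⟩, ⟨(0, 2), by decide⟩] k

theorem pr_inj : Function.Injective pr := by
  intro a b; revert a b; decide

/-- the points of the configuration -/
def F {A : Type} (S : Finset A) (i : Fin 3 ⊕ (Fin 3 × S)) : Pt A :=
  Sum.elim (fun v => Sum.inl v) (fun q => Sum.inr (q.2.1, pr q.1)) i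

theorem F_inj {A : Type} (S : Finset A) : Function.Injective (F S) := by
  intro x y h
  rcases x with v | ⟨k, x⟩ <;> rcases y with w | ⟨m, y⟩ <;> simp only [F, Sum.elim_inl, Sum.elim_inr,
    Sum.inl.injEq, Sum.inr.injEq, Prod.mk.injEq, reduceCtorEq] at h ⊢
  · exact h
  · exact ⟨pr_inj h.2, Subtype.ext h.1⟩

theorem perm_cases : ∀ i j k : Fin 3, i ≠ j → j ≠ k → i ≠ k →
    (i = 0 ∧ j = 1 ∧ k = 2) ∨ (i = 0 ∧ j = 2 ∧ k = 1) ∨ (i = 1 ∧ j = 0 ∧ k = 2) ∨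
    (i = 1 ∧ j = 2 ∧ k = 0) ∨ (i = 2 ∧ j = 0 ∧ k = 1) ∨ (i = 2 ∧ j = 1 ∧ k = 0) := by decide

theorem trans3 {A : Type} [Group A] {x : Pt A} {a b : A} (h : On x (Sum.inr (a, b))) :
    x = Sum.inr (a, pr 0) ∨ x = Sum.inr (b, pr 1) ∨ x = Sum.inr (a * b, pr 2) := by
  rcases x with v | ⟨g, p⟩
  · exact absurd h (by simp [On])
  · simp only [On] at h
    rcases h with ⟨h1, h2⟩ | ⟨h1, h2⟩ | ⟨h1, h2⟩
    · left; subst h2; congr 2; exact Subtype.ext h1
    · right; left; subst h2; congr 2; exact Subtype.ext h1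
    · right; right; subst h2; congr 2; exact Subtype.ext h1

theorem four_trans {A : Type} [Group A] {x y z w : Pt A} {a b : A} (hx : On x (Sum.inr (a, b)))
    (hy : On y (Sum.inr (a, b))) (hz : On z (Sum.inr (a, b))) (hw : On w (Sum.inr (a, b)))
    (h1 : x ≠ y) (h2 : x ≠ z) (h3 : x ≠ w) (h4 : y ≠ z) (h5 : y ≠ w) (h6 : z ≠ w) : False := by
  classical
  have hsub : ({x, y, z, w} : Finset (Pt A)) ⊆
      {Sum.inr (a, pr 0), Sum.inr (b, pr 1), Sum.inr (a * b, pr 2)} := by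
    intro u hu
    simp only [Finset.mem_insert, Finset.mem_singleton] at hu ⊢
    rcases hu with rfl | rfl | rfl | rfl
    · exact trans3 hx
    · exact trans3 hy
    · exact trans3 hz
    · exact trans3 hw
  have hc := Finset.card_le_card hsub
  have h7 : ({x, y, z, w} : Finset (Pt A)).card = 4 := by
    rw [Finset.card_insert_of_notMem (by simp [h1, h2, h3]),
      Finset.card_insert_of_notMem (by simp [h4, h5]),
      Finset.card_insert_of_notMem (by simp [h6]), Finset.card_singleton]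
  have h8 : ({Sum.inr (a, pr 0), Sum.inr (b, pr 1), Sum.inr (a * b, pr 2)} :
      Finset (Pt A)).card ≤ 3 := Finset.card_le_three
  omega

/-- internal point of the coordinate line through `i` and `j`, oriented from `i` to `j` -/
def ptO {A : Type} [Group A] (i j : Fin 3) (g : A) : Pt A :=
  if h : i < j then Sum.inr (g, ⟨(i, j), h⟩)
  else if h' : j < i then Sum.inr (g⁻¹, ⟨(j, i), h'⟩) else Sum.inl i

theorem ptO_ex {A : Type} [Group A] (i j c : Fin 3) (hij : i ≠ j) (hic : i ≠ c) (hjc : j ≠ c)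
    (g : A) (p : {p : Fin 3 × Fin 3 // p.1 < p.2}) (h : On (Sum.inr (g, p)) (Sum.inl c)) :
    ∃ γ : A, (Sum.inr (g, p) : Pt A) = ptO i j γ := by
  simp only [On] at h
  rcases lt_or_gt_of_ne hij with hlt | hlt
  · refine ⟨g, ?_⟩
    have h0 : ∀ (i j c : Fin 3) (p : {p : Fin 3 × Fin 3 // p.1 < p.2}), i < j → i ≠ c → j ≠ c →
        p.1.1 ≠ c ∧ p.1.2 ≠ c → p.1 = (i, j) := by decide
    have h1 : p = ⟨(i, j), hlt⟩ := Subtype.ext (h0 i j c p hlt hic hjc h)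
    rw [h1]
    simp [ptO, hlt]
  · refine ⟨g⁻¹, ?_⟩
    have h0 : ∀ (i j c : Fin 3) (p : {p : Fin 3 × Fin 3 // p.1 < p.2}), j < i → i ≠ c → j ≠ c →
        p.1.1 ≠ c ∧ p.1.2 ≠ c → p.1 = (j, i) := by decide
    have h1 : p = ⟨(j, i), hlt⟩ := Subtype.ext (h0 i j c p hlt hic hjc h)
    rw [h1]
    have h2 : ¬ i < j := not_lt.2 hlt.le
    simp [ptO, hlt, h2]

theorem ptO_col {A : Type} [Group A] (i j k : Fin 3) (hij : i ≠ j) (hjk : j ≠ k) (hik : i ≠ k)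
    (α β γ : A) (l : Fin 3 ⊕ (A × A)) (h1 : On (ptO i j α) l) (h2 : On (ptO j k β) l)
    (h3 : On (ptO i k γ) l) : α * β = γ := by
  rcases l with c | ⟨a, b⟩
  · exfalso
    rcases perm_cases i j k hij hjk hik with ⟨rfl, rfl, rfl⟩ | ⟨rfl, rfl, rfl⟩ | ⟨rfl, rfl, rfl⟩ |
      ⟨rfl, rfl, rfl⟩ | ⟨rfl, rfl, rfl⟩ | ⟨rfl, rfl, rfl⟩ <;>
      simp [ptO, On] at h1 h2 h3 <;> revert h1 h2 h3 <;> revert c <;> decide
  · rcases perm_cases i j k hij hjk hik with ⟨rfl, rfl, rfl⟩ | ⟨rfl, rfl, rfl⟩ | ⟨rfl, rfl, rfl⟩ |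
      ⟨rfl, rfl, rfl⟩ | ⟨rfl, rfl, rfl⟩ | ⟨rfl, rfl, rfl⟩ <;>
      simp [ptO, On] at h1 h2 h3
    · rw [h1, h2, h3]
    · have h1' := h1
      have : a = γ := h3.symm
      have e2 : b = β⁻¹ := h2.symm
      rw [h1, this, e2]; group
    · have e1 : a = α⁻¹ := h1.symm
      have e3 : b = γ := h3.symm
      rw [h2, e1, e3]; group
    · have e1 : b = α := h1.symm
      have e3 : a = γ⁻¹ := h3.symm
      have e2 : β⁻¹ = γ⁻¹ * α := by rw [h2, e1, e3]
      have : β = (γ⁻¹ * α)⁻¹ := by rw [← e2, inv_inv]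
      rw [this]; group
    · have e2 : a = β := h2.symm
      have e3 : b = γ⁻¹ := h3.symm
      have e1 : α⁻¹ = β * γ⁻¹ := by rw [h1, e2, e3]
      have : α = (β * γ⁻¹)⁻¹ := by rw [← e1, inv_inv]
      rw [this]; group
    · have e1 : b = α⁻¹ := h1.symm
      have e2 : a = β⁻¹ := h2.symm
      have e3 : γ⁻¹ = β⁻¹ * α⁻¹ := by rw [h3, e1, e2]
      have : γ = (β⁻¹ * α⁻¹)⁻¹ := by rw [← e3, inv_inv]
      rw [this]; group

end Pool.Agent.H127R3.Dow
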