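import Pool.Agent.H127R3.Dow4

set_option autoImplicit false

namespace Pool.Agent.H127R3.Dow

theorem on_joint {A : Type} [Group A] {v c : Fin 3} :
    On (Sum.inl v : Pt A) (Sum.inl c) ↔ v ≠ c := by simp [On]

/-- the coordinate line (by missing vertex) of the `k`-th pair -/
def mc (k : Fin 3) : Fin 3 := ![2, 0, 1] k

theorem on_int {A : Type} [Group A] (S : Finset A) (k : Fin 3) (x : S) (c : Fin 3) :
    On (F S (Sum.inr (k, x))) (Sum.inl c) ↔ c = mc k := by
  simp only [F, Sum.elim_inr, On]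
  revert k c; decide

theorem embed_hom {A A' : Type} [Group A] [Group A'] (S : Finset A) (h1 : (1 : A) ∈ S) (a : A)
    (ha : a ∈ S) (ha1 : a ≠ 1) (G : Fin 3 ⊕ (Fin 3 × S) → Pt A') (hG : Function.Injective G)
    (hcol : ∀ i j k, i ≠ j → j ≠ k → i ≠ k →
      ((∃ l, On (F S i) l ∧ On (F S j) l ∧ On (F S k) l) ↔
        ∃ l, On (G i) l ∧ On (G j) l ∧ On (G k) l)) :
    ∃ h : S → A', Function.Injective h ∧
      ∀ x y z : S, x.1 * y.1 = z.1 → h x * h y = h z := by
  classical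
  -- Step A
  have stepA : ∀ c : Fin 3, ∃ c' : Fin 3, ∀ i, On (F S i) (Sum.inl c) → On (G i) (Sum.inl c') := by
    intro c
    obtain ⟨v, w, hvw, hvc, hwc⟩ : ∃ v w : Fin 3, v ≠ w ∧ v ≠ c ∧ w ≠ c := by
      revert c; decide
    have hmc : ∀ c : Fin 3, ∃ k, c = mc k := by decide
    obtain ⟨k, hk⟩ := hmc c
    set P : Fin 3 ⊕ (Fin 3 × S) := Sum.inl v with hP
    set Q : Fin 3 ⊕ (Fin 3 × S) := Sum.inl w with hQ
    set X : Fin 3 ⊕ (Fin 3 × S) := Sum.inr (k, ⟨1, h1⟩) with hX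
    set Y : Fin 3 ⊕ (Fin 3 × S) := Sum.inr (k, ⟨a, ha⟩) with hY
    have hPQ : P ≠ Q := fun h => hvw (Sum.inl.inj h)
    have hPX : P ≠ X := by simp [hP, hX]
    have hPY : P ≠ Y := by simp [hP, hY]
    have hQX : Q ≠ X := by simp [hQ, hX]
    have hQY : Q ≠ Y := by simp [hQ, hY]
    have hXY : X ≠ Y := by
      simp only [hX, hY, ne_eq, Sum.inr.injEq, Prod.mk.injEq, true_and, Subtype.mk.injEq]
      exact fun h => ha1 h.symm
    have oP : On (F S P) (Sum.inl c) := on_joint.2 hvc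
    have oQ : On (F S Q) (Sum.inl c) := on_joint.2 hwc
    have oX : On (F S X) (Sum.inl c) := (on_int S k _ c).2 hk
    have oY : On (F S Y) (Sum.inl c) := (on_int S k _ c).2 hk
    obtain ⟨l, lP, lQ, lX⟩ := (hcol P Q X hPQ hQX hPX).1 ⟨_, oP, oQ, oX⟩
    -- all points of the line are mapped to `l`
    have hall : ∀ i, On (F S i) (Sum.inl c) → On (G i) l := by
      intro i hi
      by_cases hiP : i = P
      · rw [hiP]; exact lP
      by_cases hiQ : i = Q
      · rw [hiQ]; exact lQ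
      obtain ⟨l', l1, l2, l3⟩ := (hcol P Q i hPQ (fun h => hiQ h.symm) (fun h => hiP h.symm)).1
        ⟨_, oP, oQ, hi⟩
      have := on_uniq (G P) (G Q) (fun h => hPQ (hG h)) l l' lP lQ l1 l2
      rw [this]; exact l3
    rcases l with c' | ⟨α, β⟩
    · exact ⟨c', hall⟩
    · exfalso
      exact four_trans (hall P oP) (hall Q oQ) (hall X oX) (hall Y oY) (fun h => hPQ (hG h))
        (fun h => hPX (hG h)) (fun h => hPY (hG h)) (fun h => hQX (hG h)) (fun h => hQY (hG h))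
        (fun h => hXY (hG h))
  choose σ hσ using stepA
  -- Step B
  have σinj : Function.Injective σ := by
    intro c c' hcc
    by_contra hne
    have hj : ∀ v : Fin 3, On (G (Sum.inl v)) (Sum.inl (σ c)) := by
      intro v
      by_cases hv : v = c
      · rw [hcc]
        exact hσ c' _ (on_joint.2 (fun h => hne (hv.symm.trans h)))
      · exact hσ c _ (on_joint.2 hv)
    obtain ⟨l, l0, l1, l2⟩ := (hcol (Sum.inl 0) (Sum.inl 1) (Sum.inl 2) (by simp) (by simp)
      (by simp)).2 ⟨_, hj 0, hj 1, hj 2⟩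
    rcases l with i | ⟨α, β⟩
    · simp only [F, Sum.elim_inl, On] at l0 l1 l2
      revert l0 l1 l2; revert i; decide
    · simp only [F, Sum.elim_inl, On] at l0
  have σsurj : Function.Surjective σ := Finite.surjective_of_injective σinj
  -- Step C
  have hjoint : ∀ v : Fin 3, G (Sum.inl v) = Sum.inl (σ v) := by
    intro v
    obtain ⟨c1, c2, h12, hv1, hv2⟩ : ∃ c1 c2 : Fin 3, c1 ≠ c2 ∧ v ≠ c1 ∧ v ≠ c2 := by
      revert v; decide
    have o1 := hσ c1 (Sum.inl v) (on_joint.2 hv1)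
    have o2 := hσ c2 (Sum.inl v) (on_joint.2 hv2)
    have n12 : σ c1 ≠ σ c2 := fun h => h12 (σinj h)
    have nv1 : σ v ≠ σ c1 := fun h => hv1 (σinj h)
    have nv2 : σ v ≠ σ c2 := fun h => hv2 (σinj h)
    generalize σ c1 = s1 at *
    generalize σ c2 = s2 at *
    generalize σ v = s at *
    rcases hGv : G (Sum.inl v) with w | ⟨g, p⟩
    · rw [hGv] at o1 o2
      rw [on_joint] at o1 o2
      have : ∀ w s s1 s2 : Fin 3, s1 ≠ s2 → s ≠ s1 → s ≠ s2 → w ≠ s1 → w ≠ s2 → w = s := by decide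
      rw [this w s s1 s2 n12 nv1 nv2 o1 o2]
    · exfalso
      rw [hGv] at o1 o2
      simp only [On] at o1 o2
      have : ∀ (s1 s2 : Fin 3) (p : {p : Fin 3 × Fin 3 // p.1 < p.2}), s1 ≠ s2 →
          ¬ (p.1.1 ≠ s1 ∧ p.1.2 ≠ s1 ∧ p.1.1 ≠ s2 ∧ p.1.2 ≠ s2) := by decide
      exact this s1 s2 p n12 ⟨o1.1, o1.2, o2.1, o2.2⟩
  -- Step D
  have hint : ∀ (k i j : Fin 3), i ≠ j → i ≠ mc k → j ≠ mc k → ∀ x : S,
      ∃ γ : A', G (Sum.inr (k, x)) = ptO (σ i) (σ j) γ := by
    intro k i j hij hi hj x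
    have o := hσ (mc k) (Sum.inr (k, x)) ((on_int S k x _).2 rfl)
    rcases hGv : G (Sum.inr (k, x)) with w | ⟨g, p⟩
    · exfalso
      obtain ⟨v, rfl⟩ := σsurj w
      rw [← hjoint v] at hGv
      have := hG hGv
      simp at this
    · rw [hGv] at o
      exact ptO_ex (σ i) (σ j) (σ (mc k)) (fun h => hij (σinj h)) (fun h => hi (σinj h))
        (fun h => hj (σinj h)) g p o
  have e01 : ∀ x : S, ∃ γ : A', G (Sum.inr (0, x)) = ptO (σ 0) (σ 1) γ :=
    hint 0 0 1 (by decide) (by decide) (by decide)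
  have e12 : ∀ x : S, ∃ γ : A', G (Sum.inr (1, x)) = ptO (σ 1) (σ 2) γ :=
    hint 1 1 2 (by decide) (by decide) (by decide)
  have e02 : ∀ x : S, ∃ γ : A', G (Sum.inr (2, x)) = ptO (σ 0) (σ 2) γ :=
    hint 2 0 2 (by decide) (by decide) (by decide)
  choose g01 hg01 using e01
  choose g12 hg12 using e12
  choose g02 hg02 using e02
  have hmul : ∀ x y z : S, x.1 * y.1 = z.1 → g01 x * g12 y = g02 z := by
    intro x y z hxyz
    have hF : ∃ l, On (F S (Sum.inr (0, x))) l ∧ On (F S (Sum.inr (1, y))) l ∧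
        On (F S (Sum.inr (2, z))) l := by
      refine ⟨Sum.inr (x.1, y.1), ?_, ?_, ?_⟩
      · simp only [F, Sum.elim_inr, On]; left; exact ⟨rfl, trivial⟩
      · simp only [F, Sum.elim_inr, On]; right; left; exact ⟨rfl, trivial⟩
      · simp only [F, Sum.elim_inr, On]; right; right; exact ⟨rfl, hxyz.symm⟩
    obtain ⟨l, l1, l2, l3⟩ := (hcol (Sum.inr (0, x)) (Sum.inr (1, y)) (Sum.inr (2, z))
      (by simp) (by simp) (by simp)).1 hF
    rw [hg01] at l1
    rw [hg12] at l2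
    rw [hg02] at l3
    exact ptO_col (σ 0) (σ 1) (σ 2) (fun h => absurd (σinj h) (by decide))
      (fun h => absurd (σinj h) (by decide)) (fun h => absurd (σinj h) (by decide)) _ _ _ l l1 l2 l3
  set e : S := ⟨1, h1⟩ with he
  have hr : ∀ x : S, g02 x = g01 x * g12 e := fun x => (hmul x e x (by simp [he])).symm
  have hl : ∀ x : S, g02 x = g01 e * g12 x := fun x => (hmul e x x (by simp [he])).symm
  refine ⟨fun x => g01 x * (g01 e)⁻¹, ?_, ?_⟩
  · intro x y hxy
    have h2 : g01 x = g01 y := mul_right_cancel hxy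
    have h3 : G (Sum.inr (0, x)) = G (Sum.inr (0, y)) := by rw [hg01, hg01, h2]
    have h4 := hG h3
    simpa using h4
  · intro x y z hxyz
    have h2 := hmul x y z hxyz
    have h3 : g12 y = (g01 e)⁻¹ * g02 y := by rw [hl y]; group
    rw [h3, hr y, hr z] at h2
    have h4 : g01 x * (g01 e)⁻¹ * g01 y = g01 z := by
      have h5 : (g01 x * (g01 e)⁻¹ * g01 y) * g12 e = g01 z * g12 e := by
        rw [← h2]; group
      exact mul_right_cancel h5
    change g01 x * (g01 e)⁻¹ * (g01 y * (g01 e)⁻¹) = g01 z * (g01 e)⁻¹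
    rw [← h4]; group

end Pool.Agent.H127R3.Dow
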