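import Pool.Agent.H127R3.Dow5

set_option autoImplicit false

namespace Pool.Agent.H127R3.Dow

/-- the collapse in a finite group -/
theorem finite_collapse {G : Type} [Group G] [Finite G] (α b t c u d s e f g : G)
    (h1 : α * α = b) (h2 : t * b = c) (h3 : α * t = c) (h4 : t * α = d) (h5 : u * t = d)
    (h6 : s * α = e) (h7 : α * s = e) (h8 : s * u = f) (h9 : u * s = g) : f = g := by
  have r1 : t * α ^ 2 * t⁻¹ = α := by
    rw [pow_two, h1, h2, ← h3]; group
  have r2 : u = t * α * t⁻¹ := by rw [h4, ← h5]; group
  have r3 : Commute s α := by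
    show s * α = α * s
    rw [h6, h7]
  -- the order of `α ^ 2` is the order of `α`
  have ho : orderOf (α ^ 2) = orderOf α := by
    have : orderOf (t * α ^ 2 * t⁻¹) = orderOf (α ^ 2) := by
      have := orderOf_injective (MulAut.conj t).toMonoidHom (MulAut.conj t).injective (α ^ 2)
      simpa using this
    rw [r1] at this
    exact this.symm
  have hle : Subgroup.zpowers (α ^ 2) ≤ Subgroup.zpowers α := by
    rw [Subgroup.zpowers_le]
    exact Subgroup.pow_mem _ (Subgroup.mem_zpowers α) 2
  have heq : Subgroup.zpowers (α ^ 2) = Subgroup.zpowers α := by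
    apply Subgroup.eq_of_le_of_card_ge hle
    rw [Nat.card_zpowers, Nat.card_zpowers, ho]
  have hmem : α ∈ Subgroup.zpowers (α ^ 2) := by
    rw [heq]; exact Subgroup.mem_zpowers α
  obtain ⟨k, hk⟩ := Subgroup.mem_zpowers_iff.1 hmem
  have hu : u = α ^ k := by
    rw [r2]
    conv_lhs => rw [← hk]
    rw [← conj_zpow, r1]
  rw [← h8, ← h9, hu]
  exact (r3.zpow_right k)

/-- translation by one -/
def pa : Equiv.Perm ℚ := Equiv.addRight 1

/-- halving -/
def pt : Equiv.Perm ℚ where
  toFun x := x / 2
  invFun x := 2 * x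
  left_inv x := by ring
  right_inv x := by ring

/-- shift by one on the points with fractional part below one half -/
def ps : Equiv.Perm ℚ where
  toFun x := if Int.fract x < 1 / 2 then x + 1 else x
  invFun x := if Int.fract x < 1 / 2 then x - 1 else x
  left_inv x := by
    by_cases h : Int.fract x < 1 / 2
    · simp only [h, if_true, Int.fract_add_one, add_sub_cancel_right]
    · simp only [h, if_false]
  right_inv x := by
    by_cases h : Int.fract x < 1 / 2
    · simp only [h, if_true, Int.fract_sub_one, sub_add_cancel]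
    · simp only [h, if_false]

/-- translation by one half -/
def pu : Equiv.Perm ℚ := Equiv.addRight (1 / 2)

theorem rel1 : pt * (pa * pa) = pa * pt := by
  ext x
  simp only [Equiv.Perm.mul_apply, pt, pa, Equiv.coe_fn_mk, Equiv.coe_addRight]
  ring

theorem rel2 : pu * pt = pt * pa := by
  ext x
  simp only [Equiv.Perm.mul_apply, pt, pa, pu, Equiv.coe_fn_mk, Equiv.coe_addRight]
  ring

theorem rel3 : ps * pa = pa * ps := by
  ext x
  simp only [Equiv.Perm.mul_apply, ps, pa, Equiv.coe_fn_mk, Equiv.coe_addRight, Int.fract_add_one]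
  by_cases h : Int.fract x < 1 / 2
  · simp only [h, if_true]
  · simp only [h, if_false]

theorem rel4 : ps * pu ≠ pu * ps := by
  intro h
  have h1 := congrArg (fun σ : Equiv.Perm ℚ => σ 0) h
  have h2 : Int.fract (1 / 2 : ℚ) = 1 / 2 := by
    rw [Int.fract_eq_self]; norm_num
  simp only [Equiv.Perm.mul_apply, ps, pu, Equiv.coe_fn_mk, Equiv.coe_addRight, zero_add,
    Int.fract_zero, h2] at h1
  norm_num at h1

theorem perm_infinite : Infinite (Equiv.Perm ℚ) := by
  apply Infinite.of_injective (fun q : ℚ => (Equiv.addRight q : Equiv.Perm ℚ))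
  intro a b h
  have := congrArg (fun σ : Equiv.Perm ℚ => σ 0) h
  simpa using this

end Pool.Agent.H127R3.Dow
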