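import Pool.Agent.H127R3.Dow6

set_option autoImplicit false

namespace Pool.Agent.H127R3.Dow

theorem lind_image {α β ι : Type} [DecidableEq β] (L : β → ι → Prop) (f : α → β)
    (hf : Function.Injective f) (X : Finset α) :
    LInd (fun x l => L (f x) l) X ↔ LInd L (X.image f) := by
  unfold LInd
  rw [Finset.card_image_of_injective _ hf]
  refine and_congr_right (fun _ => ?_)
  constructor
  · intro h x hx y hy z hz hxy hyz hxz l
    rw [Finset.mem_image] at hx hy hz
    obtain ⟨x, hx, rfl⟩ := hx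
    obtain ⟨y, hy, rfl⟩ := hy
    obtain ⟨z, hz, rfl⟩ := hz
    exact h x hx y hy z hz (fun h => hxy (by rw [h])) (fun h => hyz (by rw [h]))
      (fun h => hxz (by rw [h])) l
  · intro h x hx y hy z hz hxy hyz hxz l
    exact h (f x) (Finset.mem_image_of_mem f hx) (f y) (Finset.mem_image_of_mem f hy) (f z)
      (Finset.mem_image_of_mem f hz) (fun h => hxy (hf h)) (fun h => hyz (hf h))
      (fun h => hxz (hf h)) l

theorem lind_triple {α ι : Type} [DecidableEq α] (L : α → ι → Prop) {x y z : α} (hxy : x ≠ y)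
    (hyz : y ≠ z) (hxz : x ≠ z) :
    LInd L {x, y, z} ↔ ¬ ∃ l, L x l ∧ L y l ∧ L z l := by
  constructor
  · rintro ⟨_, h⟩ ⟨l, hl⟩
    exact h x (by simp) y (by simp) z (by simp) hxy hyz hxz l hl
  · intro h
    refine ⟨Finset.card_le_three, ?_⟩
    intro a ha b hb c hc hab hbc hac l hl
    apply h
    refine ⟨l, ?_⟩
    simp only [Finset.mem_insert, Finset.mem_singleton] at ha hb hc
    rcases ha with rfl | rfl | rfl <;> rcases hb with rfl | rfl | rfl <;>
      rcases hc with rfl | rfl | rfl <;> tauto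

theorem main :
    ∃ (n : ℕ) (M : Matroid (Fin n)),
      (∃ f : Fin n → Pt (Equiv.Perm ℚ), Set.InjOn f M.E ∧
        ∀ X ⊆ M.E, (M.Indep X ↔ DI (Equiv.Perm ℚ) (f '' X))) ∧
      ∀ (A' : Type) (_ : Group A'), Finite A' →
        ¬ ∃ f : Fin n → Pt A', Set.InjOn f M.E ∧
          ∀ X ⊆ M.E, (M.Indep X ↔ DI A' (f '' X)) := by
  classical
  set S : Finset (Equiv.Perm ℚ) :=
    {1, pa, pa * pa, pt, pa * pt, pu, pu * pt, ps, ps * pa, ps * pu, pu * ps} with hS
  have m1 : (1 : Equiv.Perm ℚ) ∈ S := by simp [hS]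
  have ma : pa ∈ S := by simp [hS]
  have mb : pa * pa ∈ S := by simp [hS]
  have mt : pt ∈ S := by simp [hS]
  have mc' : pa * pt ∈ S := by simp [hS]
  have mu : pu ∈ S := by simp [hS]
  have md : pu * pt ∈ S := by simp [hS]
  have ms : ps ∈ S := by simp [hS]
  have me : ps * pa ∈ S := by simp [hS]
  have mf : ps * pu ∈ S := by simp [hS]
  have mg : pu * ps ∈ S := by simp [hS]
  have ha1 : pa ≠ 1 := by
    intro h
    have := congrArg (fun σ : Equiv.Perm ℚ => σ 0) h
    simp [pa] at this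
  let e : Fin (Fintype.card (Fin 3 ⊕ (Fin 3 × S))) ≃ Fin 3 ⊕ (Fin 3 × S) :=
    (Fintype.equivFin _).symm
  obtain ⟨M, hME, hM⟩ := exists_matroid (fun x l => On (F S (e x)) l)
    (fun x y hxy l l' h1 h2 h3 h4 => on_uniq (F S (e x)) (F S (e y))
      (fun h => hxy (e.injective (F_inj S h))) l l' h1 h2 h3 h4)
  have hfinj : Function.Injective (fun x => F S (e x)) :=
    fun x y h => e.injective (F_inj S h)
  refine ⟨_, M, ⟨fun x => F S (e x), hfinj.injOn, ?_⟩, ?_⟩
  · intro X _
    have h1 := hM X.toFinset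
    rw [Set.coe_toFinset] at h1
    rw [h1, lind_image (On (A := Equiv.Perm ℚ)) (fun x => F S (e x)) hfinj, ← di_iff]
    rw [Finset.coe_image, Set.coe_toFinset]
  · rintro A' _ _ ⟨f, hf, hfX⟩
    rw [hME] at hf hfX
    have hfi : Function.Injective f := Set.injOn_univ.1 hf
    obtain ⟨h, hinj, hmul⟩ := embed_hom S m1 pa ma ha1 (fun i => f (e.symm i))
      (fun i j hij => e.symm.injective (hfi hij)) (by
        intro i j k hij hjk hik
        have hij' : e.symm i ≠ e.symm j := fun h => hij (e.symm.injective h)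
        have hjk' : e.symm j ≠ e.symm k := fun h => hjk (e.symm.injective h)
        have hik' : e.symm i ≠ e.symm k := fun h => hik (e.symm.injective h)
        have h1 := hM {e.symm i, e.symm j, e.symm k}
        rw [lind_triple _ hij' hjk' hik'] at h1
        have h2 := hfX (({e.symm i, e.symm j, e.symm k} : Finset _) : Set _) (Set.subset_univ _)
        rw [← Finset.coe_image, di_iff, ← lind_image (On (A := A')) f hfi,
          lind_triple _ hij' hjk' hik', h1] at h2
        simp only [Equiv.apply_symm_apply] at h2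
        exact not_iff_not.1 h2)
    have key := finite_collapse (h ⟨_, ma⟩) (h ⟨_, mb⟩) (h ⟨_, mt⟩) (h ⟨_, mc'⟩) (h ⟨_, mu⟩)
      (h ⟨_, md⟩) (h ⟨_, ms⟩) (h ⟨_, me⟩) (h ⟨_, mf⟩) (h ⟨_, mg⟩)
      (hmul _ _ _ rfl) (hmul _ _ _ rel1) (hmul _ _ _ rfl) (hmul _ _ _ rel2.symm) (hmul _ _ _ rfl)
      (hmul _ _ _ rfl) (hmul _ _ _ rel3.symm) (hmul _ _ _ rfl) (hmul _ _ _ rfl)
    have h3 := hinj key
    exact rel4 (congrArg Subtype.val h3)

end Pool.Agent.H127R3.Dow
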