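import Pool.Agent.Helper993.FP.G2
import Pool.Agent.Helper993.FP.G3

set_option autoImplicit false
set_option linter.all false

/-! Assembly of the free pro-`p` subgroup theorem: growth of the language of normal words from the
growth of the augmentation powers, one step of the construction with the growth hypothesis in
language form, and the limit. -/

namespace Pool.Agent.H127R3.FPfinal

open FPA FPD FPW FPG

/-- factor closed languages have submultiplicative growth -/
theorem an_submul {d : ℕ} (L : Set (List (Fin d)))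
    (hL : ∀ u v w : List (Fin d), u ++ v ++ w ∈ L → v ∈ L) (m n : ℕ) :
    an' L (m + n) ≤ an' L m * an' L n := by
  classical
  unfold an'
  have hfin : ∀ k : ℕ, {w : List (Fin d) | w ∈ L ∧ w.length = k}.Finite := fun k =>
    (List.finite_length_eq (Fin d) k).subset (fun w hw => hw.2)
  rw [← Set.ncard_prod]
  refine Set.ncard_le_ncard_of_injOn (fun w => (w.take m, w.drop m)) ?_ ?_
    ((hfin m).prod (hfin n))
  · rintro w ⟨hw, hl⟩
    refine ⟨⟨?_, ?_⟩, ?_, ?_⟩
    · apply hL [] (w.take m) (w.drop m)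
      rw [List.nil_append, List.take_append_drop]; exact hw
    · simp [hl]
    · apply hL (w.take m) (w.drop m) []
      rw [List.append_nil, List.take_append_drop]; exact hw
    · simp [hl]
  · intro w _ w' _ h
    simp only [Prod.mk.injEq] at h
    rw [← List.take_append_drop m w, ← List.take_append_drop m w', h.1, h.2]

theorem an_mul_le {d : ℕ} (L : Set (List (Fin d)))
    (hL : ∀ u v w : List (Fin d), u ++ v ++ w ∈ L → v ∈ L) (n j : ℕ) (hj : 1 ≤ j) :
    an' L (n * j) ≤ an' L n ^ j := by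
  induction j, hj using Nat.le_induction with
  | base => simp
  | succ j hj ih =>
    rw [Nat.mul_succ, pow_succ]
    exact (an_submul L hL _ _).trans (Nat.mul_le_mul_right _ ih)

theorem growth_all {d : ℕ} (L : Set (List (Fin d)))
    (hL : ∀ u v w : List (Fin d), u ++ v ++ w ∈ L → v ∈ L) (r : ℝ) (hr : 1 < r) (n0 : ℕ)
    (h : ∀ n : ℕ, n0 ≤ n → 1 ≤ n → r ^ n ≤ (an' L n : ℝ)) (n : ℕ) (hn : 1 ≤ n) :
    r ^ n ≤ (an' L n : ℝ) := by
  have hj : 1 ≤ n0 + 1 := by omega
  have h1 : n0 ≤ n * (n0 + 1) := by nlinarith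
  have h2 := h (n * (n0 + 1)) h1 (by nlinarith)
  have h3 : (an' L (n * (n0 + 1)) : ℝ) ≤ (an' L n : ℝ) ^ (n0 + 1) := by
    exact_mod_cast an_mul_le L hL n (n0 + 1) hj
  have h4 : (r ^ n) ^ (n0 + 1) ≤ (an' L n : ℝ) ^ (n0 + 1) := by
    rw [← pow_mul]; exact h2.trans h3
  exact le_of_pow_le_pow_left₀ (by omega) (by positivity) h4

section
variable (p : ℕ) [Fact p.Prime] (G : Type) [Group G] [TopologicalSpace G] [IsTopologicalGroup G]
  [CompactSpace G] {d : ℕ} (g : Fin d → G)

/-- one open normal subgroup with a large augmentation quotient gives many normal words -/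
theorem lang_growth_of (hg : Dense ((Subgroup.closure (Set.range g) : Subgroup G) : Set G))
    (N : Subgroup G) (hNn : N.Normal) (ho : IsOpen (N : Set G)) (n : ℕ) (hn : 1 ≤ n) (t : ℝ)
    (h : t + ((Module.finrank (ZMod p)
          ↥((Submodule.span (ZMod p) (Set.range fun g : G ⧸ N =>
              (MonoidAlgebra.single g (1 : ZMod p) - 1 : MonoidAlgebra (ZMod p) (G ⧸ N)))) ^ (n + 1)) : ℕ) : ℝ)
        ≤ ((Module.finrank (ZMod p)
          ↥((Submodule.span (ZMod p) (Set.range fun g : G ⧸ N =>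
              (MonoidAlgebra.single g (1 : ZMod p) - 1 : MonoidAlgebra (ZMod p) (G ⧸ N)))) ^ n) : ℕ) : ℝ)) :
    t ≤ (an' (Ng p G g) n : ℝ) := by
  haveI : Finite (G ⧸ N) := Subgroup.quotient_finite_of_isOpen N ho
  have hfin : Module.Finite (ZMod p) (MonoidAlgebra (ZMod p) (G ⧸ N)) := inferInstance
  have hgen := gen_mon p (G ⧸ N) (fun i => (QuotientGroup.mk (g i) : G ⧸ N)) (gen_quot G g hg N ho)
  have h4 := normal_count (flt_mon p (G ⧸ N)) _ hgen n inferInstance
  rw [jm_eq p (G ⧸ N) n hn, jm_eq p (G ⧸ N) (n + 1) (by omega)] at h4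
  have h5 : Set.ncard {w : List (Fin d) | w.length = n ∧
      xw (MonoidAlgebra.of (ZMod p) (G ⧸ N)) (fun i => (QuotientGroup.mk (g i) : G ⧸ N)) w ∉
      TT (MonoidAlgebra.of (ZMod p) (G ⧸ N))
        (fun n => Jm p (G ⧸ N) n) (fun i => (QuotientGroup.mk (g i) : G ⧸ N)) w} ≤
      an' (Ng p G g) n := by
    unfold an'
    apply Set.ncard_le_ncard
    · rintro w ⟨hw1, hw2⟩
      exact ⟨⟨N, hNn, ho, hw2⟩, hw1⟩
    · exact (List.finite_length_eq (Fin d) n).subset (fun w hw => hw.2)
  have h6 := h4.trans (Nat.add_le_add_left h5 _)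
  have e1 := Submodule.finrank_quotient_add_finrank
    ((Submodule.span (ZMod p) (Set.range (fun g : G ⧸ N => MonoidAlgebra.of (ZMod p) (G ⧸ N) g - 1))) ^ n)
  have e2 := Submodule.finrank_quotient_add_finrank
    ((Submodule.span (ZMod p) (Set.range (fun g : G ⧸ N => MonoidAlgebra.of (ZMod p) (G ⧸ N) g - 1))) ^ (n + 1))
  have h7 : Module.finrank (ZMod p)
          ↥((Submodule.span (ZMod p) (Set.range fun g : G ⧸ N =>
              (MonoidAlgebra.single g (1 : ZMod p) - 1 : MonoidAlgebra (ZMod p) (G ⧸ N)))) ^ n) ≤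
      Module.finrank (ZMod p)
          ↥((Submodule.span (ZMod p) (Set.range fun g : G ⧸ N =>
              (MonoidAlgebra.single g (1 : ZMod p) - 1 : MonoidAlgebra (ZMod p) (G ⧸ N)))) ^ (n + 1)) +
        an' (Ng p G g) n := by
    have e1' : _ + Module.finrank (ZMod p)
          ↥((Submodule.span (ZMod p) (Set.range fun g : G ⧸ N =>
              (MonoidAlgebra.single g (1 : ZMod p) - 1 : MonoidAlgebra (ZMod p) (G ⧸ N)))) ^ n) = _ := e1
    have e2' : _ + Module.finrank (ZMod p)
          ↥((Submodule.span (ZMod p) (Set.range fun g : G ⧸ N =>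
              (MonoidAlgebra.single g (1 : ZMod p) - 1 : MonoidAlgebra (ZMod p) (G ⧸ N)))) ^ (n + 1)) = _ := e2
    omega
  have h8 : ((Module.finrank (ZMod p)
          ↥((Submodule.span (ZMod p) (Set.range fun g : G ⧸ N =>
              (MonoidAlgebra.single g (1 : ZMod p) - 1 : MonoidAlgebra (ZMod p) (G ⧸ N)))) ^ n) : ℕ) : ℝ) ≤
      ((Module.finrank (ZMod p)
          ↥((Submodule.span (ZMod p) (Set.range fun g : G ⧸ N =>
              (MonoidAlgebra.single g (1 : ZMod p) - 1 : MonoidAlgebra (ZMod p) (G ⧸ N)))) ^ (n + 1)) : ℕ) : ℝ) +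
        (an' (Ng p G g) n : ℝ) := by exact_mod_cast h7
  linarith

end

end Pool.Agent.H127R3.FPfinal
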