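import Pool.Agent.H127R3.FPfinal

set_option autoImplicit false
set_option linter.all false

namespace Pool.Agent.H127R3.FPfinal

open FPA FPD FPW FPG

/-- one step of the construction (as in the starting repository's `FPG.gstep`, with the growth
hypothesis stated for the language of normal words) -/
theorem gstep' (p : ℕ) [Fact p.Prime] (G : Type) [Group G] [TopologicalSpace G] [IsTopologicalGroup G]
    [CompactSpace G] (hG : ∀ N : Subgroup G, IsOpen (N : Set G) → N.Normal → ∃ k : ℕ, N.index = p ^ k)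
    {d : ℕ} (g : Fin d → G)
    (hg : Dense ((Subgroup.closure (Set.range g) : Subgroup G) : Set G)) (r : ℝ) (hr : 1 < r)
    (hgr : ∀ n : ℕ, 1 ≤ n → r ^ n ≤ (an' (Ng p G g) n : ℝ))
    (μ : ℝ) (h1 : 1 < μ) (h2 : μ < r) (s : ℕ) (hs1 : 1 ≤ s) (hs2 : (256 : ℝ) ≤ μ ^ s) (k : ℕ) (hk : 1 ≤ k)
    (U0 : Subgroup G) [U0.Normal] (hU0 : IsOpen (U0 : Set G)) (x0 y0 : G) (hx0 : x0 ∈ Gf G s) (hy0 : y0 ∈ Gf G s) :
    ∃ x y : G, x ∈ Gf G s ∧ y ∈ Gf G s ∧ x0⁻¹ * x ∈ U0 ∧ y0⁻¹ * y ∈ U0 ∧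
      ∃ (U : Subgroup G) (_ : U.Normal), IsOpen (U : Set G) ∧ U ≤ U0 ∧ Good p G x y k U := by
  classical
  haveI hfin0 : Finite (G ⧸ U0) := Subgroup.quotient_finite_of_isOpen U0 hU0
  obtain ⟨k', hk'⟩ := hG U0 hU0 inferInstance
  obtain ⟨n0, hn0, hJ0⟩ := aug_nilp p (G ⧸ U0) ⟨k', by rw [← hk']; rfl⟩
  have hGf0 : Gf (G ⧸ U0) n0 = ⊥ := by
    rw [eq_bot_iff]
    refine (Gf_le (flt_mon p (G ⧸ U0)) n0).trans ?_
    intro h hh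
    change MonoidAlgebra.of (ZMod p) (G ⧸ U0) h - 1 ∈ Jm p (G ⧸ U0) n0 at hh
    rw [hJ0, Submodule.mem_bot, sub_eq_zero] at hh
    rw [Subgroup.mem_bot]
    have h3 : MonoidAlgebra.of (ZMod p) (G ⧸ U0) h = MonoidAlgebra.of (ZMod p) (G ⧸ U0) 1 := by
      rw [hh, map_one]
    exact MonoidAlgebra.of_injective h3
  have hGfU : Gf G n0 ≤ U0 := by
    intro v hv
    have h4 : (QuotientGroup.mk' U0) v ∈ Gf (G ⧸ U0) n0 := by
      rw [← Gf_map (QuotientGroup.mk' U0) (QuotientGroup.mk'_surjective U0) n0]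
      exact Subgroup.mem_map_of_mem _ hv
    rw [hGf0, Subgroup.mem_bot] at h4
    exact (QuotientGroup.eq_one_iff v).1 h4
  obtain ⟨nmax, hM⟩ := MFT p d (Ng p G g) (lang_factor p G g) r hr
    hgr μ h1 h2 s hs1 hs2 k hk (max n0 s)
  obtain ⟨U1, hU1n, hU1o, hU1⟩ := lang_uniform p G g nmax
  haveI := hU1n
  haveI hUn : (U0 ⊓ U1).Normal := inferInstance
  have hUo : IsOpen ((U0 ⊓ U1 : Subgroup G) : Set G) := by
    rw [Subgroup.coe_inf]; exact hU0.inter hU1o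
  haveI hfinU : Finite (G ⧸ (U0 ⊓ U1)) := Subgroup.quotient_finite_of_isOpen (U0 ⊓ U1) hUo
  have hmem : ∀ (v : G) (n : ℕ), v ∈ Gf G n → (QuotientGroup.mk v : G ⧸ (U0 ⊓ U1)) ∈ Gf (G ⧸ (U0 ⊓ U1)) n := by
    intro v n hv
    rw [← Gf_map (QuotientGroup.mk' (U0 ⊓ U1)) (QuotientGroup.mk'_surjective (U0 ⊓ U1)) n]
    exact Subgroup.mem_map_of_mem (QuotientGroup.mk' (U0 ⊓ U1)) hv
  obtain ⟨⟨u1, u2⟩, hu, hf⟩ := hM (G ⧸ (U0 ⊓ U1)) (MonoidAlgebra (ZMod p) (G ⧸ (U0 ⊓ U1)))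
    (MonoidAlgebra.of (ZMod p) (G ⧸ (U0 ⊓ U1))) (Jm p (G ⧸ (U0 ⊓ U1))) (flt_mon p (G ⧸ (U0 ⊓ U1)))
    (fun i => (QuotientGroup.mk (g i) : G ⧸ (U0 ⊓ U1)))
    (gen_mon p (G ⧸ (U0 ⊓ U1)) _ (gen_quot G g hg (U0 ⊓ U1) hUo))
    (hU1 (U0 ⊓ U1) inferInstance hUo inf_le_right)
    ((QuotientGroup.mk x0 : G ⧸ (U0 ⊓ U1)), (QuotientGroup.mk y0 : G ⧸ (U0 ⊓ U1)))
    (Subgroup.mem_prod.2 ⟨hmem x0 s hx0, hmem y0 s hy0⟩)
  obtain ⟨hu1, hu2⟩ := Subgroup.mem_prod.1 hu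
  have hlift : ∀ (u : G ⧸ (U0 ⊓ U1)) (n : ℕ), u ∈ Gf (G ⧸ (U0 ⊓ U1)) n →
      ∃ v ∈ Gf G n, (QuotientGroup.mk v : G ⧸ (U0 ⊓ U1)) = u := by
    intro u n hu
    rw [← Gf_map (QuotientGroup.mk' (U0 ⊓ U1)) (QuotientGroup.mk'_surjective (U0 ⊓ U1)) n] at hu
    obtain ⟨v, hv, hvu⟩ := Subgroup.mem_map.1 hu
    exact ⟨v, hv, hvu⟩
  obtain ⟨v1, hv1, hv1u⟩ := hlift u1 _ hu1
  obtain ⟨v2, hv2, hv2u⟩ := hlift u2 _ hu2
  refine ⟨x0 * v1, y0 * v2, mul_mem hx0 (Gf_anti G s _ (le_max_right _ _) hv1),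
    mul_mem hy0 (Gf_anti G s _ (le_max_right _ _) hv2), ?_, ?_, U0 ⊓ U1, hUn, hUo, inf_le_left, ?_⟩
  · rw [inv_mul_cancel_left]
    exact hGfU (Gf_anti G n0 _ (le_max_left _ _) hv1)
  · rw [inv_mul_cancel_left]
    exact hGfU (Gf_anti G n0 _ (le_max_left _ _) hv2)
  · intro f hf1 hf2
    have := hf f hf1 hf2
    subst hv1u
    subst hv2u
    exact this

/-- limits of sequences which are Cauchy along a decreasing sequence of open subgroups -/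
theorem exists_limit {G : Type} [Group G] [TopologicalSpace G] [IsTopologicalGroup G]
    [CompactSpace G] (x : ℕ → G) (U : ℕ → Subgroup G) (hU : ∀ n, IsOpen (U n : Set G))
    (hle : ∀ n, U (n + 1) ≤ U n) (hx : ∀ n, (x n)⁻¹ * x (n + 1) ∈ U n) :
    ∃ z : G, ∀ n, (x n)⁻¹ * z ∈ U n := by
  have hcl : ∀ n, IsClosed ((fun z => (x n)⁻¹ * z) ⁻¹' (U n : Set G)) := fun n =>
    (Subgroup.isClosed_of_isOpen (U n) (hU n)).preimage (continuous_const.mul continuous_id)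
  obtain ⟨z, hz⟩ := IsCompact.nonempty_iInter_of_sequence_nonempty_isCompact_isClosed
    (fun n => (fun z => (x n)⁻¹ * z) ⁻¹' (U n : Set G)) (by
      intro n z hz
      have hz' : (x (n + 1))⁻¹ * z ∈ U (n + 1) := hz
      show (x n)⁻¹ * z ∈ U n
      have := (U n).mul_mem (hx n) (hle n hz')
      rwa [mul_assoc, mul_inv_cancel_left] at this) (by
      intro n
      exact ⟨x n, by
        show (x n)⁻¹ * x n ∈ U n
        rw [inv_mul_cancel]; exact (U n).one_mem⟩) (hcl 0).isCompact hcl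
  refine ⟨z, fun n => ?_⟩
  exact Set.mem_iInter.1 hz n

theorem main (p : ℕ) [Fact p.Prime] (G : Type) [Group G] [TopologicalSpace G] [IsTopologicalGroup G]
    [CompactSpace G] (hG : ∀ N : Subgroup G, IsOpen (N : Set G) → N.Normal → ∃ k : ℕ, N.index = p ^ k)
    {d : ℕ} (g : Fin d → G)
    (hg : Dense ((Subgroup.closure (Set.range g) : Subgroup G) : Set G)) (r : ℝ) (hr : 1 < r)
    (hgr : ∀ n : ℕ, 1 ≤ n → r ^ n ≤ (an' (Ng p G g) n : ℝ)) :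
    ∃ x y : G, ∀ k, 1 ≤ k → ∃ (U : Subgroup G) (_ : U.Normal), IsOpen (U : Set G) ∧ Good p G x y k U := by
  classical
  obtain ⟨μ, h1, h2⟩ := exists_between hr
  obtain ⟨s0, hs0⟩ := pow_unbounded_of_one_lt (256 : ℝ) h1
  have hs2 : (256 : ℝ) ≤ μ ^ (s0 + 1) :=
    hs0.le.trans (pow_le_pow_right₀ h1.le (Nat.le_succ s0))
  let S : Type := {q : G × G × Subgroup G // q.1 ∈ Gf G (s0 + 1) ∧ q.2.1 ∈ Gf G (s0 + 1) ∧
    q.2.2.Normal ∧ IsOpen (q.2.2 : Set G)}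
  have step : ∀ (k : ℕ) (q : S), ∃ q' : S, (q.1.1)⁻¹ * q'.1.1 ∈ q.1.2.2 ∧
      (q.1.2.1)⁻¹ * q'.1.2.1 ∈ q.1.2.2 ∧ q'.1.2.2 ≤ q.1.2.2 ∧
      ∃ _ : (q'.1.2.2).Normal, Good p G q'.1.1 q'.1.2.1 (k + 1) q'.1.2.2 := by
    rintro k ⟨⟨x0, y0, U0⟩, hx0, hy0, hn, ho⟩
    haveI : U0.Normal := hn
    obtain ⟨x, y, hx, hy, hxx, hyy, U, hUn, hUo, hle, hgood⟩ :=
      gstep' p G hG g hg r hr hgr μ h1 h2 (s0 + 1) (by omega) hs2 (k + 1) (by omega) U0 ho x0 y0 hx0 hy0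
    exact ⟨⟨(x, y, U), hx, hy, hUn, hUo⟩, hxx, hyy, hle, hUn, hgood⟩
  choose nx hnx using step
  let q0 : S := ⟨(1, 1, ⊤), one_mem _, one_mem _, inferInstance, isOpen_univ⟩
  let q : ℕ → S := fun n => Nat.rec q0 (fun k a => nx k a) n
  have hq : ∀ n, q (n + 1) = nx n (q n) := fun n => rfl
  obtain ⟨x, hx⟩ := exists_limit (fun n => (q n).1.1) (fun n => (q n).1.2.2) (fun n => (q n).2.2.2.2)
    (fun n => by rw [hq]; exact (hnx n (q n)).2.2.1) (fun n => by rw [hq]; exact (hnx n (q n)).1)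
  obtain ⟨y, hy⟩ := exists_limit (fun n => (q n).1.2.1) (fun n => (q n).1.2.2) (fun n => (q n).2.2.2.2)
    (fun n => by rw [hq]; exact (hnx n (q n)).2.2.1) (fun n => by rw [hq]; exact (hnx n (q n)).2.1)
  refine ⟨x, y, fun k hk => ?_⟩
  obtain ⟨j, rfl⟩ : ∃ j, k = j + 1 := ⟨k - 1, by omega⟩
  obtain ⟨-, -, -, hn, hgood⟩ := hnx j (q j)
  have hxj : ((nx j (q j)).1.1)⁻¹ * x ∈ (nx j (q j)).1.2.2 := hx (j + 1)
  have hyj : ((nx j (q j)).1.2.1)⁻¹ * y ∈ (nx j (q j)).1.2.2 := hy (j + 1)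
  refine ⟨(nx j (q j)).1.2.2, hn, (nx j (q j)).2.2.2.2, ?_⟩
  intro f hf1 hf2
  have e1 : (QuotientGroup.mk x : G ⧸ (nx j (q j)).1.2.2) = QuotientGroup.mk (nx j (q j)).1.1 :=
    (QuotientGroup.eq.2 hxj).symm
  have e2 : (QuotientGroup.mk y : G ⧸ (nx j (q j)).1.2.2) = QuotientGroup.mk (nx j (q j)).1.2.1 :=
    (QuotientGroup.eq.2 hyj).symm
  rw [e1, e2]
  exact hgood f hf1 hf2

end Pool.Agent.H127R3.FPfinal
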